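import Pool.Agent.Q195.OP1

set_option autoImplicit false

open Pool.Agent.Q195.OPB

namespace Pool.Agent.Results.MP_59cc96_an.OperationalIsGenSummation

/-- Every operational basis of a real or complex Banach space is a generalized summation basis
with respect to some sequence of endomorphisms of the spans of the first `n` vectors. -/
theorem result : ∀ (𝕜 : Type) [RCLike 𝕜] (E : Type) [NormedAddCommGroup E] [NormedSpace 𝕜 E]
    [CompleteSpace E] (x : ℕ → E) (f : ℕ → E →L[𝕜] 𝕜) (v : ∀ n, PP 𝕜 x n →ₗ[𝕜] PP 𝕜 x n),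
    IsOperational x f v → ∃ v' : ∀ n, PP 𝕜 x n →ₗ[𝕜] PP 𝕜 x n, IsGenSummation x v' := by
  intro 𝕜 _ E _ _ _ x f v h
  exact main x f v h

end Pool.Agent.Results.MP_59cc96_an.OperationalIsGenSummation
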